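import Pool.Agent.Q17.AM.Stm4
import Pool.Agent.Q17.OS.Stm

/-!
# Statements of the parts of project DM (Dade's alternating sums modulo a prime `r`)

`Wc G r` is the wreath product of `G` with the cyclic group of prime order `r ≠ p`. Library: `S_ADJ`
(`t_ADJ` in `Q111.OS.ADJ`), `t_WPX`, `t_PRS`, `t_ALX` in `Q224.OS.*` (the same for direct products),
`t_PCN` in `Q66.OS.Pcn`, `t_DPR` in `Q261.OS.DPR`, `t_PRD` in `Q177.WR.PRD`, `E`, `E_retract`, `E_image`
in `Q18.KRX.Poset`, `toE`, `WC_eq_E`, `mem_Ch` in `Q92.WR.TOPX`, `t_ZPR` in `Q150.WR.ZPR`, `t_CLS` in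
`Q162.AM.CLS`, `t_CCL` in `Q162.AM.CCL`, `t_BLK` in `Q166.AM.BLK`, `t_EXC` and `t_EXI` in `Q17.DC.All`.
-/

set_option autoImplicit false

open scoped Classical

noncomputable section

namespace Pool.Agent.Q17.DM

open Pool.Agent.H254R3.IN hiding NN
open Pool.Agent.Y63.KR Pool.Agent.Q17.WR Pool.Agent.Q17.DC Pool.Agent.Q17.AM Pool.Agent.Q17.OS

section

variable {G : Type} [Group G] {r : ℕ} [Fact r.Prime]

/-- the projection of the intersection of `K` with the base group to the component `ω` -/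
def cmp (ω : Cy r) (K : Subgroup (Wc G r)) : Subgroup G where
  carrier := {g | ∃ x ∈ K, x.right = 1 ∧ x.left ω = g}
  one_mem' := ⟨1, K.one_mem, rfl, rfl⟩
  mul_mem' := by
    rintro g h ⟨x, hx, hx1, rfl⟩ ⟨y, hy, hy1, rfl⟩
    refine ⟨x * y, K.mul_mem hx hy, by rw [SemidirectProduct.mul_right, hx1, hy1, one_mul], ?_⟩
    have h : (x * y).left ω = x.left ω * y.left (x.right⁻¹ * ω) := rfl
    rw [h, hx1, inv_one, one_mul]
  inv_mem' := by
    rintro g ⟨x, hx, hx1, rfl⟩
    refine ⟨x⁻¹, K.inv_mem hx, by rw [SemidirectProduct.inv_right, hx1, inv_one], ?_⟩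
    have h : (x⁻¹).left ω = (x.left (x.right * ω))⁻¹ := by
      change (x.left ((x.right⁻¹)⁻¹ * ω))⁻¹ = _
      rw [inv_inv]
    rw [h, hx1, one_mul]

/-- the stabiliser of the family of the cosets `m ω L`; it is the conjugate of `Wc L r` by the element
`m` of the base group -/
def Lw (m : Cy r → G) (L : Subgroup G) : Subgroup (Wc G r) where
  carrier := {x | ∀ ω, (m ω)⁻¹ * x.left ω * m (x.right⁻¹ * ω) ∈ L}
  one_mem' := by
    intro ω
    have h : (m ω)⁻¹ * (1 : Wc G r).left ω * m ((1 : Wc G r).right⁻¹ * ω) = 1 := by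
      change (m ω)⁻¹ * 1 * m (1⁻¹ * ω) = 1
      rw [inv_one, one_mul, mul_one, inv_mul_cancel]
    rw [h]
    exact L.one_mem
  mul_mem' := by
    intro x y hx hy ω
    have h : (m ω)⁻¹ * (x * y).left ω * m ((x * y).right⁻¹ * ω) =
        ((m ω)⁻¹ * x.left ω * m (x.right⁻¹ * ω)) *
          ((m (x.right⁻¹ * ω))⁻¹ * y.left (x.right⁻¹ * ω) * m (y.right⁻¹ * (x.right⁻¹ * ω))) := by
      have h1 : (x * y).left ω = x.left ω * y.left (x.right⁻¹ * ω) := rfl
      have h2 : (x * y).right⁻¹ * ω = y.right⁻¹ * (x.right⁻¹ * ω) := by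
        rw [SemidirectProduct.mul_right, mul_inv_rev, mul_assoc]
      rw [h1, h2]
      group
    rw [h]
    exact L.mul_mem (hx ω) (hy _)
  inv_mem' := by
    intro x hx ω
    have h1 : (x⁻¹).left ω = (x.left (x.right * ω))⁻¹ := by
      change (x.left ((x.right⁻¹)⁻¹ * ω))⁻¹ = _
      rw [inv_inv]
    have h2 : (x⁻¹).right⁻¹ * ω = x.right * ω := by
      rw [SemidirectProduct.inv_right, inv_inv]
    have h3 := hx (x.right * ω)
    rw [inv_mul_cancel_left] at h3
    rw [h1, h2]
    have h4 : (m ω)⁻¹ * (x.left (x.right * ω))⁻¹ * m (x.right * ω) =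
        ((m (x.right * ω))⁻¹ * x.left (x.right * ω) * m ω)⁻¹ := by
      group
    rw [h4]
    exact L.inv_mem h3

/-- the intersection with the base group -/
def Bi (K : Subgroup (Wc G r)) : Subgroup (Wc G r) := K ⊓ Bs G (Cy r) (Cy r)

end

/-- JOB WZM. The alternating sums for subgroups of the base group `M`. Proof. All `p`-subgroups of
`Wc G r` are in `M` (`p ≠ r`). `P ↦ Pw (fun ω => cmp ω P)` is an inflationary retraction of the poset of
the nontrivial `p`-subgroups normalised by `K` onto the set of the `Pw Q`, `Q ω` a `p`-subgroup of `G`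
normalised by `cmp ω K`, not all `Q ω` trivial (`K ≤ M`). As in `Q224.OS.WPX` the sum over the chains of
the latter is the product (induction over a set of `ω`, or a product formula `t_PRD` for a family). -/
def S_WZM : Prop := ∀ (p r : ℕ) [Fact p.Prime] [Fact r.Prime], p ≠ r → ∀ (G : Type) [Group G]
  [Finite G] (K : Subgroup (Wc G r)), (∀ x ∈ K, x.right = 1) →
  WZ p ⊤ ⊥ K = ∏ ω : Cy r, WZ p ⊤ ⊥ (cmp ω K)

/-- JOB WZN. The alternating sums for the other subgroups. Proof. Let `K` contain an element outside the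
base group `M`; as `r` is prime `K` has for every `ω` an element `x_ω` with `x_ω.right = ω`. As in
`S_WZM` the chains of the nontrivial `p`-subgroups normalised by `K` may be replaced by the chains of the
`Pw Q` normalised by `K`. `x (Pw Q) x⁻¹` has the component `x.left ω * Q (x.right⁻¹ * ω) * (x.left ω)⁻¹`
at `ω`, so `Pw Q` is normalised by `K` if and only if `Q 1` is normalised by `cmp 1 K` and
`Q ω = (x_ω.left ω) (Q 1) (x_ω.left ω)⁻¹` for all `ω`. So `Q ↦ Q 1` is an isomorphism of posets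
(`E_image`). -/
def S_WZN : Prop := ∀ (p r : ℕ) [Fact p.Prime] [Fact r.Prime], p ≠ r → ∀ (G : Type) [Group G]
  [Finite G] (K : Subgroup (Wc G r)), (∃ x ∈ K, x.right ≠ 1) →
  WZ p ⊤ ⊥ K = WZ p ⊤ ⊥ (cmp 1 K)

/-- JOB ASM (`t_ASM : S_ADJ → S_WZM → S_WZN → S_ASM`). The sum over chains for `Wc G r`. Proof. By
`S_ADJ` (1) write `F H = ∑ K ≤ H, f K`. Then `CS p ⊤ ⊥ F = ∑ K, f K * WZ p ⊤ ⊥ K`. (a) The `K` contained
in the base group `M`: by `S_WZM` and `S_ADJ` (2) for `X` = the subgroups of `M` (with the restriction of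
`f`), `Y = Cy r → Subgroup G`, `κ K ω = cmp ω K`, `ι = Pw`, `g y = ∏ ω, f₁ (y ω)`
(`F₁ H = ∑ K ≤ H, f₁ K`) they contribute `∏ ω, CS p ⊤ ⊥ F₁`. (b) The other `K`: put
`T L = ∑ f K` over these `K` with `cmp 1 K = L`. For a fixed `L` sum
`F (Lw m L) - F (Bi (Lw m L)) = ∑ f K` (over the `K ≤ Lw m L` not contained in `M`) over all
`m : Cy r → G` with `m 1 = 1`. Such a `K` is in `Lw m L` if and only if `cmp 1 K ≤ L` and
`m ω ∈ (x_ω.left ω) L` for all `ω ≠ 1`, `x_ω ∈ K` with `x_ω.right = ω` (if this holds and `x ∈ K` then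
`x_ω⁻¹ x x_{x.right⁻¹ ω}` is in `K ⊓ M` and its component at `1` is in `L`). So the sum is
`|L| ^ (r - 1)` times the sum of the `T L'`, `L' ≤ L`, and by assumption it is
`|G| ^ (r - 1) * |L| ^ (r - 1) * Φ L`. So `∑ L' ≤ L, T L' = |G| ^ (r - 1) * Φ L` (polynomials over `ℤ`
have no torsion), and by `S_WZN` the contribution is `∑ L, T L * WZ p ⊤ ⊥ L = |G| ^ (r - 1) * CS Φ`
(exchange the sums again). -/
def S_ASM : Prop := ∀ (p r : ℕ) [Fact p.Prime] [Fact r.Prime], p ≠ r → ∀ (G : Type) [Group G]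
  [Finite G] (F : Subgroup (Wc G r) → Polynomial ℤ) (F₁ Φ : Subgroup G → Polynomial ℤ),
  (∀ H : Cy r → Subgroup G, F (Pw H) = ∏ ω, F₁ (H ω)) →
  (∀ (L : Subgroup G) (m : Cy r → G),
    F (Lw m L) - F (Bi (Lw m L)) = ((Nat.card L) ^ (r - 1)) • Φ L) →
  CS p ⊤ ⊥ F = (CS p ⊤ ⊥ F₁) ^ r + ((Nat.card G) ^ (r - 1)) • CS p ⊤ ⊥ Φ

/-- the irreducible character `ψ` of the subgroup `H` of `Γ` has the central character of the block `B`
of `Γ` on the set `X`, and defect `d` -/
structure Cd {Γ : Type} [Group Γ] (p : ℕ) (O : ValuationSubring ℂ) (B : Set (Γ → ℂ)) (X : Set Γ)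
    (d : ℕ) (H : Subgroup Γ) (ψ : H → ℂ) : Prop where
  irr : IsIrr ψ
  ind : ∀ χ ∈ B, ∀ x ∈ X, omega χ x - ∑ᶠ y : {y : H // IsConj x (y : Γ)}, ψ y / ψ 1 ∈ O.nonunits
  defect : ∃ n : ℕ, (n : ℂ) = ψ 1 ∧ (Nat.card H).factorization p = d + n.factorization p

/-- the number of these characters -/
def cd {Γ : Type} [Group Γ] (p : ℕ) (O : ValuationSubring ℂ) (B : Set (Γ → ℂ)) (X : Set Γ)
    (d : ℕ) (H : Subgroup Γ) : ℕ := Nat.card {ψ : H → ℂ // Cd p O B X d H ψ}

/-- the polynomial of these numbers, times the order of `H` -/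
def pol {Γ : Type} [Group Γ] (p : ℕ) (O : ValuationSubring ℂ) (B : Set (Γ → ℂ)) (X : Set Γ)
    (H : Subgroup Γ) : Polynomial ℤ :=
  (Nat.card H) • ∑ d ∈ Finset.range ((Nat.card Γ).factorization p + 1),
    Polynomial.monomial d (cd p O B X d H : ℤ)

/-- JOB CDM (`t_CDM : S_ZPR → S_CLS → S_CCL → S_BLK → S_CDM`). The numbers for subgroups of the base group. Let
`M = {x | x.right = 1}`. Proof. `d ↦ cd ... d H` vanishes for `d` larger than the exponent of `p` in
`|H|`, so the range of the sum in `pol` does not matter. The irreducible characters `ψ` of `Pw H` are the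
products of irreducible characters `ψ ω` of the `H ω`, uniquely (`S_ZPR`; transport to a dependent
product: the same proof as in `Q150.WR.ZPR`, or see `Q66.OS.Pcn`), the orders and the defects add up.
Claim: `ψ` satisfies `ind` for `LX B`, `M`, if and only if all `ψ ω` satisfy `ind` for `B`,
`Set.univ`. For `u : G → ℂ` a class function with values in `O` put
`v ω u = ∑ y : H ω, u y * ψ ω y / ψ ω 1`, `v u = Om u χ₀` for `χ₀ ∈ B`. (⇐) Let `x ∈ M`. The sum over the
`y ∈ Pw H` conjugate to `x` in `Wc G r` is the sum over the `n` classes `K` of `M` in the class of `x` of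
the products of the values of `v ω` at the class functions of `K ω`, congruent to
`∏ ω, omega χ₀ (x.left ω)`; `S_CCL` (1) gives `omega χ x` for `χ ∈ LX B`. (⇒) Let `u` be a class function
of `G` with values in `O`, `c ∈ O`. The function `U x = ∏ ω, (u (x.left ω) + c * δ (x.left ω))` for
`x ∈ M`, `0` otherwise (`δ` the characteristic function of `{1}`) is a class function of `Wc G r` with
values in `O`; apply `ind` to it (sum over the classes): the sum over the `y ∈ Pw H` of
`U y * ψ y / ψ 1` is `∏ ω, (v ω u + c)`, and `Om U χ ≡ (v u + c) ^ r` for `χ ∈ LX B` (`S_CCL` (1)). For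
`c = - v ω₀ u` (it is in `O`: `ψ ω₀ y / ψ ω₀ 1` summed over a class of `H ω₀` is an algebraic integer)
the product is `0`, so `v u ≡ v ω₀ u`. -/
def S_CDM : Prop := ∀ (p r : ℕ) [Fact p.Prime] [Fact r.Prime], p ≠ r → ∀ (G : Type) [Group G]
  [Fintype G] (O : ValuationSubring ℂ), (p : ℂ) ∈ O.nonunits → ∀ B : Set (G → ℂ), IsBlock O B →
  Pos O B → ∀ H : Cy r → Subgroup G,
  pol p O (LX (r := r) B) {x | x.right = 1} (Pw H) = ∏ ω, pol p O B Set.univ (H ω)

/-- JOB CDN (`t_CDN : S_ZPR → S_CLS → S_CDM → S_CDN`). The numbers for the subgroups `Lw m L`. Proof.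
Conjugation by `m` gives `e : Lw m L ≃* Wc L r`, `(e x).right = x.right`,
`(e x).left ω = (m ω)⁻¹ * x.left ω * m (x.right⁻¹ * ω)`. By `S_CLS` the irreducible characters of
`Lw m L` are the `nch f ∘ e` (`f` non-constant, up to the action of `Cy r`) and the `cch θ l ∘ e`. The
condition `ind` for the set `M` concerns only the values on `M`, and for `nch f`, as well as for
`cch θ l` (with `f` constant) it is the condition for the character `prf f` of `Wc L r ∩ M` (the set of
the `y ∈ Lw m L` conjugate to `x ∈ M` is stable under conjugation by `Lw m L`, which permutes the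
`prf (f ∘ a)`), which by the claim in the proof of `S_CDM` (for the conjugate `Pw (m ω L (m ω)⁻¹)`, this
is `Bi (Lw m L)`) holds if and only if all `f ω` satisfy `ind` for `B`, `Set.univ`. So with
`n = ∑ d, monomial d (cd p O B Set.univ d L)` the polynomial of `Lw m L` is
`r |L| ^ r * ((n ^ r - expand r n) / r + r * expand r n)`: there are `r` homomorphisms `l`, the defects
are the sums of the defects of the `f ω` (`p ≠ r`), and the orbits on non-constant `f` have size `r`. By
`S_CDM` the one of `Bi (Lw m L)` is `|L| ^ r * n ^ r` (the polynomial of a conjugate is the same). The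
difference is `(r ^ 2 - 1) |L| ^ r * expand r n`. -/
def S_CDN : Prop := ∀ (p r : ℕ) [Fact p.Prime] [Fact r.Prime], p ≠ r → ∀ (G : Type) [Group G]
  [Fintype G] (O : ValuationSubring ℂ), (p : ℂ) ∈ O.nonunits → ∀ B : Set (G → ℂ), IsBlock O B →
  Pos O B → ∀ (L : Subgroup G) (m : Cy r → G),
  pol p O (LX (r := r) B) {x | x.right = 1} (Lw m L) -
      pol p O (LX (r := r) B) {x | x.right = 1} (Bi (Lw m L)) =
    ((Nat.card L) ^ (r - 1)) • ((r ^ 2 - 1) • Polynomial.expand ℤ r (pol p O B Set.univ L))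

/-- JOB CDC (`t_CDC : S_EXC → S_BLK → S_CDC`). For stabilisers of chains the condition `ind` on the base
group `M` is enough. Proof. Let `H` be the stabiliser of the chain `σ` and `ψ` an irreducible character
of `H` with `ind` for the set `M`. By `S_EXC` (with `X = ⊤`; transport between `⊤` and the group) there
is a block `B'` of `Wc G r` such that `ψ` satisfies `ind` for `B'` and all `x`. Let `χ' ∈ B'`,
`χ ∈ LX B`: `omega χ' x ≡ omega χ x` for all `x ∈ M`. The class function `E = blockCoeff (LX B)` has values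
in `O` and vanishes outside `M` (`S_BLK`), so by `red_Om` `Om E χ' ≡ Om E χ = 1`, and
`χ' ∈ LX B` (`Om_blockCoeff`). So `B' = LX B`. -/
def S_CDC : Prop := ∀ (p r : ℕ) [Fact p.Prime] [Fact r.Prime], p ≠ r → ∀ (G : Type) [Group G]
  [Fintype G] (O : ValuationSubring ℂ), (p : ℂ) ∈ O.nonunits → ∀ B : Set (G → ℂ), IsBlock O B →
  Pos O B → ∀ σ : Set (Subgroup (Wc G r)), Ch p ⊤ ⊥ σ →
  pol p O (LX (r := r) B) {x | x.right = 1} (chainStabilizer σ) =
    pol p O (LX (r := r) B) Set.univ (chainStabilizer σ)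

/-- Dade's alternating sum for the block `B` and the defect `d` (chains of nontrivial `p`-subgroups) -/
def DO {G : Type} [Group G] (p : ℕ) (O : ValuationSubring ℂ) (B : Set (G → ℂ)) (d : ℕ) : ℤ :=
  altX p ⊤ ⊥ (fun σ => (cd p O B Set.univ d (chainStabilizer σ) : ℤ))

/-- JOB DMR (`t_DMR : S_ALX → S_ASM → S_CDM → S_CDN → S_CDC → S_DMR`). Dade's alternating sums for
`LX B`. Proof. `D B = ∑ d, monomial d (DO p O B d)` satisfies `|G| * D B = CS p ⊤ ⊥ (pol p O B univ)` by
`S_ALX` (see `Q261.OS.DPR`; `cd` is invariant under conjugation of the chain). Let `F` be `pol` for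
`LX B` and the set `M`; by `S_CDC` `|Wc G r| * D (LX B) = CS p ⊤ ⊥ F`, and `S_ASM` with `S_CDM`, `S_CDN`
gives `r * D (LX B) = (D B) ^ r + (r ^ 2 - 1) * expand r (D B)`. So if `r ^ j` divides `D B` and
`D (LX B)` then `r ^ (j + 1)` divides `D B` (`1 ≤ j`; `r` is prime to `r ^ 2 - 1`, and `expand r` only
moves the coefficients). -/
def S_DMR : Prop := ∀ (p r : ℕ) [Fact p.Prime] [Fact r.Prime], p ≠ r → ∀ (G : Type) [Group G]
  [Fintype G] (O : ValuationSubring ℂ), (p : ℂ) ∈ O.nonunits → ∀ B : Set (G → ℂ), IsBlock O B →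
  Pos O B → ∀ j : ℕ, 1 ≤ j → (∀ d, (r : ℤ) ^ j ∣ DO p O B d) →
  (∀ d, (r : ℤ) ^ j ∣ DO p O (LX (r := r) B) d) → ∀ d, (r : ℤ) ^ (j + 1) ∣ DO p O B d

end Pool.Agent.Q17.DM
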