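import Pool.Agent.Q17.AM.Fin2
import Pool.Agent.Q17.OS.Fin
import Pool.Agent.Q14.DM.ASM
import Pool.Agent.Q92.DM.WZM
import Pool.Agent.Q151.DM.WZN
import Pool.Agent.Q252.DM.CDM
import Pool.Agent.Q14.DM.CDN
import Pool.Agent.Q251.DM.CDC
import Pool.Agent.Q275.DM.DMR

/-!
# Dade's alternating sums for wreath products with cyclic groups: the final lemmas
-/

set_option autoImplicit false

open scoped Classical

noncomputable section

namespace Pool.Agent.Q17.DM

open Pool.Agent.H254R3.IN hiding NN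
open Pool.Agent.Y63.KR Pool.Agent.Q17.WR Pool.Agent.Q17.DC Pool.Agent.Q17.AM Pool.Agent.Q17.OS
open Pool.Agent.Q275.DM

theorem d_asm : S_ASM :=
  Pool.Agent.Q14.DM.t_ASM Pool.Agent.Q111.OS.t_ADJ Pool.Agent.Q92.DM.t_WZM
    Pool.Agent.Q151.DM.t_WZN
theorem d_cdm : S_CDM := Pool.Agent.Q252.DM.t_CDM p_zpr p_cls p_ccl p_blk
theorem d_cdn : S_CDN := Pool.Agent.Q14.DM.t_CDN p_zpr p_cls d_cdm
theorem d_cdc : S_CDC := Pool.Agent.Q251.DM.t_CDC s_exc p_blk
theorem d_alx : S_ALX := Pool.Agent.Q224.OS.t_ALX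
theorem d_dmr : S_DMR := t_DMR d_alx d_asm d_cdm d_cdn d_cdc

/-- the alternating sums for `LX B` -/
theorem dm_id (p r : ℕ) [Fact p.Prime] [Fact r.Prime] (hpr : p ≠ r) (G : Type) [Group G]
    [Fintype G] (O : ValuationSubring ℂ) (hO : (p : ℂ) ∈ O.nonunits) (B : Set (G → ℂ))
    (hB : IsBlock O B) (hP : Pos O B) :
    (r : Polynomial ℤ) * PD p O (LX (r := r) B) =
      PD p O B ^ r + ((r ^ 2 - 1 : ℕ) : Polynomial ℤ) * Polynomial.expand ℤ r (PD p O B) := by
  have h1 : CS p ⊤ ⊥ (pol p O (LX (r := r) B) {x | x.right = 1}) =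
      CS p ⊤ ⊥ (pol p O (LX (r := r) B) Set.univ) := by
    unfold CS
    exact finsum_congr fun σ => by rw [d_cdc p r hpr G O hO B hB hP σ.1 σ.2]
  have h2 := d_asm p r hpr G (pol p O (LX (r := r) B) {x | x.right = 1}) (pol p O B Set.univ)
    (fun L => (r ^ 2 - 1) • Polynomial.expand ℤ r (pol p O B Set.univ L))
    (fun H => d_cdm p r hpr G O hO B hB hP H) (fun L m => d_cdn p r hpr G O hO B hB hP L m)
  rw [h1, CS_exp, CS_eq d_alx, CS_eq d_alx, card_Wc] at h2
  have hcG : (Nat.card G : ℤ) ≠ 0 := by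
    have := (Nat.card_pos (α := G)).ne'
    exact_mod_cast this
  have hr0 : 0 < r := (Fact.out : r.Prime).pos
  have h6 : (Nat.card G : ℤ) ^ r = (Nat.card G : ℤ) ^ (r - 1) * (Nat.card G : ℤ) := by
    rw [← pow_succ]
    congr 1
    omega
  have h5 : Polynomial.C ((Nat.card G : ℤ) ^ r) ≠ 0 := by
    rw [Ne, Polynomial.C_eq_zero]
    exact pow_ne_zero _ hcG
  refine mul_left_cancel₀ h5 ?_
  rw [nsmul_eq_mul, nsmul_eq_mul, map_mul, Polynomial.expand_C] at h2
  have h7 : (r : Polynomial ℤ) = Polynomial.C (r : ℤ) := (Polynomial.C_eq_natCast r).symm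
  have h8 : ((Nat.card G ^ (r - 1) : ℕ) : Polynomial ℤ) =
      Polynomial.C ((Nat.card G : ℤ) ^ (r - 1)) := by
    rw [← Polynomial.C_eq_natCast]
    push_cast
    rfl
  calc Polynomial.C ((Nat.card G : ℤ) ^ r) * ((r : Polynomial ℤ) * PD p O (LX (r := r) B))
      = Polynomial.C ((Nat.card G ^ r * r : ℕ) : ℤ) * PD p O (LX (r := r) B) := by
        rw [h7, ← mul_assoc, ← Polynomial.C_mul]
        push_cast
        rfl
    _ = _ := by
        rw [h2, mul_pow, ← Polynomial.C_pow, h8, h6, Polynomial.C_mul]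
        ring

/-- a normal `p`-subgroup of the wreath product is trivial if the group has no nontrivial normal
`p`-subgroup -/
theorem op_wc {p r : ℕ} [Fact p.Prime] [Fact r.Prime] (hpr : p ≠ r) {G : Type} [Group G]
    [Finite G] (h : ∀ Q : Subgroup G, Q.Normal → IsPGroup p Q → Q = ⊥)
    (Q : Subgroup (Wc G r)) (hQ : Q.Normal) (hp : IsPGroup p Q) : Q = ⊥ := by
  have h1 : ∀ x ∈ Q, x.right = 1 := by
    intro x hx
    obtain ⟨k, hk⟩ := hp ⟨x, hx⟩
    have hk' : x ^ (p ^ k) = 1 := congrArg Subtype.val hk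
    have h2 : x.right ^ (p ^ k) = 1 := by
      have h3 := congrArg (SemidirectProduct.rightHom (φ := mulAutArrow (G := Cy r) (A := Cy r)
        (M := G))) hk'
      rw [map_pow, map_one] at h3
      exact h3
    have h3 : x.right ^ r = 1 := by
      have h4 : Nat.card (Cy r) = r := by
        rw [Nat.card_congr (Multiplicative.toAdd : Cy r ≃ ZMod r), Nat.card_zmod]
      have h5 := pow_card_eq_one' (x := x.right)
      rwa [h4] at h5
    have h4 : Nat.Coprime (p ^ k) r := Nat.Coprime.pow_left k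
      ((Nat.coprime_primes Fact.out Fact.out).mpr hpr)
    have h5 : orderOf x.right ∣ 1 := by
      rw [← h4]
      exact Nat.dvd_gcd (orderOf_dvd_of_pow_eq_one h2) (orderOf_dvd_of_pow_eq_one h3)
    exact orderOf_eq_one_iff.mp (Nat.dvd_one.mp h5)
  rw [eq_bot_iff]
  intro x hx
  rw [Subgroup.mem_bot]
  -- the components
  have h2 : ∀ ω : Cy r, cmp ω Q = ⊥ := by
    intro ω
    refine h _ ⟨fun g hg a => ?_⟩ fun g => ?_
    · obtain ⟨y, hy, hy1, rfl⟩ := hg
      have h3 := hQ.conj_mem y hy (SemidirectProduct.inl (fun _ => a))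
      refine ⟨_, h3, h1 _ h3, ?_⟩
      change ((((SemidirectProduct.inl (fun _ => a) : Wc G r) * y) *
        (SemidirectProduct.inl (fun _ => a) : Wc G r)⁻¹).left ω) = a * y.left ω * a⁻¹
      have h4 : ∀ u v : Wc G r, (u * v).left ω = u.left ω * v.left (u.right⁻¹ * ω) :=
        fun u v => rfl
      have h5 : (SemidirectProduct.inl (fun _ => a) : Wc G r).right⁻¹ * ω = ω := by
        change (1 : Cy r)⁻¹ * ω = ω
        rw [inv_one, one_mul]
      rw [h4, h4, ← map_inv, h5]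
      rfl
    · obtain ⟨g, y, hy, hy1, rfl⟩ := g
      obtain ⟨k, hk⟩ := hp ⟨y, hy⟩
      have hk' : y ^ (p ^ k) = 1 := congrArg Subtype.val hk
      refine ⟨k, Subtype.ext ?_⟩
      change (y.left ω) ^ (p ^ k) = 1
      have h5 : ∀ n : ℕ, (y ^ n).right = 1 ∧ (y ^ n).left ω = (y.left ω) ^ n := by
        intro n
        induction n with
        | zero => exact ⟨rfl, by rw [pow_zero, pow_zero]; rfl⟩
        | succ n ih =>
            refine ⟨by rw [pow_succ, SemidirectProduct.mul_right, ih.1, hy1, one_mul], ?_⟩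
            have h6 : (y ^ n * y).left ω = (y ^ n).left ω * y.left ((y ^ n).right⁻¹ * ω) := rfl
            rw [pow_succ, h6, ih.1, ih.2, inv_one, one_mul, pow_succ]
      rw [← (h5 _).2, hk']
      rfl
  refine SemidirectProduct.ext (funext fun ω => ?_) (h1 x hx)
  have h3 : x.left ω ∈ cmp ω Q := ⟨x, hx, h1 x hx, rfl⟩
  rw [h2 ω, Subgroup.mem_bot] at h3
  exact h3

/-- the order of the wreath product -/
lemma dw_ne_bot {G : Type} [Group G] {r : ℕ} [Fact r.Prime] {D : Subgroup G} (h : D ≠ ⊥) :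
    Dw r D ≠ ⊥ := by
  intro h1
  refine h ((Subgroup.eq_bot_iff_forall D).mpr fun g hg => ?_)
  have h2 : (SemidirectProduct.inl (fun _ => g) : Wc G r) ∈ Dw r D := ⟨rfl, fun _ => hg⟩
  rw [h1, Subgroup.mem_bot] at h2
  exact congrArg (fun y : Wc G r => y.left 1) h2

end Pool.Agent.Q17.DM
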